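import Pool.Agent.X164.LN3.Tan

/-!
MP_5c4bc0_an, Q1, on the second assertion: the expansion of the largest root of `L_{n,k}` up to the term
`C_0/n`, with `C_0 = -(3/2 + ζ(2) + ζ(3))`.

The definitions (`integ`, `L`, `F`, `Lk`) are in `Pool/Agent/X164/LN/Alg.lean`.
-/

namespace Pool.Agent.Results.MP_5c4bc0_an.FirstCoefficient

open Polynomial Filter Topology X164.LN X164.LN2 X164.LN3

/-- For every `k ≥ 1` the largest real root `ρ n` of `L_{n,k}` (`n ≥ 2`) satisfies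
`n (ρ n - (n + log n + γ + k - 1)) → -(3/2 + ζ(2) + ζ(3))` as `n → ∞`. -/
theorem result (k : ℕ) (hk : 1 ≤ k) :
    ∃ ρ : ℕ → ℝ, (∀ n : ℕ, 2 ≤ n → IsGreatest {x : ℝ | aeval x (Lk n k) = 0} (ρ n)) ∧
      Tendsto (fun n : ℕ => (n : ℝ) *
          (ρ n - ((n : ℝ) + Real.log n + Real.eulerMascheroniConstant + k - 1))) atTop
        (𝓝 (-(3 / 2 + (∑' i : ℕ, 1 / ((i : ℝ) + 1) ^ 2) + ∑' i : ℕ, 1 / ((i : ℝ) + 1) ^ 3))) := by
  obtain ⟨k, rfl⟩ := Nat.exists_eq_add_of_le' hk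
  refine ⟨fun n => R (n - 2 + k + 1) (n - 2), ?_, ?_⟩
  · intro n hn
    obtain ⟨j, rfl⟩ := Nat.exists_eq_add_of_le' hn
    exact greatest j k
  · rw [← tendsto_add_atTop_iff_nat 2]
    have t1 := tannery (k + 1)
    have t2 := (X9.LN.t_EUL).comp (tendsto_add_atTop_nat 2)
    have r1 : Tendsto (fun j : ℕ => ((j : ℝ) + 2) / ((j : ℝ) + k + 2)) atTop (𝓝 1) := by
      have h := ((tendsto_const_div_atTop_nhds_zero_nat (k : ℝ)).comp
        (tendsto_add_atTop_nat (k + 2))).const_sub 1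
      rw [sub_zero] at h
      refine h.congr (fun j => ?_)
      simp only [Function.comp]
      push_cast
      have : (j : ℝ) + k + 2 ≠ 0 := by positivity
      rw [← add_assoc]
      field_simp
      ring
    have r2 : Tendsto (fun j : ℕ => ((j : ℝ) + 2) / ((j : ℝ) + 1)) atTop (𝓝 1) := by
      have h := lim0.const_add 1
      rw [add_zero] at h
      refine h.congr (fun j => ?_)
      field_simp
      ring
    have s2 : Summable (fun i : ℕ => 1 / ((i : ℝ) + 1) ^ 2) := by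
      have := (summable_nat_add_iff 1).mpr (Real.summable_one_div_nat_pow.mpr (by norm_num : 1 < 2))
      refine this.congr (fun i => ?_)
      push_cast
      rfl
    have s3 : Summable (fun i : ℕ => 1 / ((i : ℝ) + 1) ^ 3) := by
      have := (summable_nat_add_iff 1).mpr (Real.summable_one_div_nat_pow.mpr (by norm_num : 1 < 3))
      refine this.congr (fun i => ?_)
      push_cast
      rfl
    have hs : ∑' i : ℕ, (1 + 1 / ((i : ℝ) + 1)) / ((i : ℝ) + 1) ^ 2
        = (∑' i : ℕ, 1 / ((i : ℝ) + 1) ^ 2) + ∑' i : ℕ, 1 / ((i : ℝ) + 1) ^ 3 := by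
      rw [← s2.tsum_add s3]
      refine tsum_congr (fun i => ?_)
      field_simp
    rw [hs] at t1
    have h := (((r1.mul t1).add t2).sub r2).sub (tendsto_const_nhds (x := (1 : ℝ)))
    have hval : (1 * -((∑' i : ℕ, 1 / ((i : ℝ) + 1) ^ 2) + ∑' i : ℕ, 1 / ((i : ℝ) + 1) ^ 3)
        + 1 / 2 - 1 - 1 : ℝ)
        = -(3 / 2 + (∑' i : ℕ, 1 / ((i : ℝ) + 1) ^ 2) + ∑' i : ℕ, 1 / ((i : ℝ) + 1) ^ 3) := by
      ring
    rw [hval] at h
    refine h.congr (fun j => ?_)
    have e1 : R (j + 2 - 2 + k + 1) (j + 2 - 2) = R (j + (k + 1)) j := rfl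
    simp only [Function.comp]
    rw [e1, ← H_eq]
    have hH : H (j + 2) = H j + 1 / ((j : ℝ) + 1) + 1 / ((j : ℝ) + 2) := by
      rw [H_succ, H_succ]
      push_cast
      ring
    rw [hH]
    push_cast
    have h1 : (j : ℝ) + k + 2 ≠ 0 := by positivity
    have h2 : (j : ℝ) + 2 ≠ 0 := by positivity
    have h3 : (j : ℝ) + (k + 1) + 1 = (j : ℝ) + k + 2 := by ring
    rw [h3]
    field_simp
    ring

end Pool.Agent.Results.MP_5c4bc0_an.FirstCoefficient
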