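import Pool.Agent.X164.LN2.Last

/-!
MP_5c4bc0_an, Q1, on the second assertion: explicit two-sided bounds for the largest root of `L_{n,k}`,
uniform in `k`, which give `ρ_{n,k} = n + log n + γ + k - 1 + O(1/n)`.

The definitions (`integ`, `L`, `F`, `Lk`) are in `Pool/Agent/X164/LN/Alg.lean`.
-/

namespace Pool.Agent.Results.MP_5c4bc0_an.LargestRoot

open Polynomial X164.LN X164.LN2

/-- For all `n ≥ 2`, `k ≥ 1` the largest real root `ρ` of `L_{n,k}` satisfies, with `M = n + k - 1`,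
`M + H_{n-2} - 5/M ≤ ρ ≤ M + H_{n-2}` (`H_m` the harmonic numbers), and so
`-8/n ≤ ρ - (n + log n + γ + k - 1) ≤ 0`. -/
theorem result (n k : ℕ) (hn : 2 ≤ n) (hk : 1 ≤ k) :
    ∃ ρ : ℝ, IsGreatest {x : ℝ | aeval x (Lk n k) = 0} ρ ∧
      ((n : ℝ) + k - 1) + ((harmonic (n - 2) : ℚ) : ℝ) - 5 / ((n : ℝ) + k - 1) ≤ ρ ∧
      ρ ≤ ((n : ℝ) + k - 1) + ((harmonic (n - 2) : ℚ) : ℝ) ∧
      -8 / (n : ℝ) ≤ ρ - ((n : ℝ) + Real.log n + Real.eulerMascheroniConstant + k - 1) ∧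
      ρ - ((n : ℝ) + Real.log n + Real.eulerMascheroniConstant + k - 1) ≤ 0 := by
  obtain ⟨ρ, h1, h2, h3⟩ := main n k hn hk
  obtain ⟨h4, h5⟩ := harm n hn
  have hn0 : (0 : ℝ) < n := by
    have : 0 < n := by omega
    exact_mod_cast this
  have hk1 : (1 : ℝ) ≤ k := by exact_mod_cast hk
  have h6 : 5 / ((n : ℝ) + k - 1) ≤ 5 / n :=
    div_le_div_of_nonneg_left (by norm_num) hn0 (by linarith)
  have h7 : -8 / (n : ℝ) = - (5 / n) - 3 / n := by ring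
  refine ⟨ρ, h1, ?_, ?_, ?_, ?_⟩
  · rw [← H_eq]; exact h3
  · rw [← H_eq]; exact h2
  · rw [h7]; linarith
  · linarith

end Pool.Agent.Results.MP_5c4bc0_an.LargestRoot
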