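import Pool.Agent.X164.LN.Fin

/-!
MP_5c4bc0_an, Q1, first assertion: for all `n, k ≥ 1` the polynomial `L_{n,k}` has only real nonnegative
roots.

The definitions (`integ`, `L`, `F`, `Lk`) are in `Pool/Agent/X164/LN/Alg.lean`.  The proof uses the formula
`L_{n,k} = (-1)^(n+k) (k / n!) (D - 1)(D - 2)⋯(D - (n-1)) X^(n+k-1)`, `D = d/dX`
(`X164.LN.Lk_formula` in `Pool/Agent/X164/LN/Fin.lean`).
-/

namespace Pool.Agent.Results.MP_5c4bc0_an.RealRoots

open Polynomial X164.LN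

/-- For all `n, k ≥ 1`: `L_{n,k} ≠ 0` and all complex roots of `L_{n,k}` are real and nonnegative. -/
theorem result (n k : ℕ) (hn : 1 ≤ n) (hk : 1 ≤ k) :
    Lk n k ≠ 0 ∧ ∀ z : ℂ, aeval z (Lk n k) = 0 → z.im = 0 ∧ 0 ≤ z.re :=
  NN_Lk n k hn hk

end Pool.Agent.Results.MP_5c4bc0_an.RealRoots
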